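import Pool.Agent.H99.ADJ.Main
import Pool.Agent.H6.ADJ.POL

/-!
# A dichotomy for the adjacency graph of the complement of planar Brownian motion

Either (I) almost surely every closed subset of the trace has a connected adjacency graph, or
(II) almost surely the graph of the trace on every time interval has infinitely many connected
components inside every open set which meets the trace, every point visited at a fixed time is
separated from the rest of the graph, and the ball of radius `r` about the starting point is linked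
to infinity in the graph of `B[0,t]` with probability at most `C (r ^ 2 / t) ^ α`.

Definitions used in the statement (from `Pool.Agent.H99.ADJ.Defs`): `Pl` is `Fin 2 → ℝ`,
`IsPBM μ B` are literally the hypotheses of the frozen statement S19721, `tr B ω s t` is the trace on
`[s,t]`, `Linked K x y` is the chain relation of S19721 for the set `K`, and `LinkedInf K z` means
that `z` is linked to a point of an unbounded component of the complement of `K`.
-/

set_option autoImplicit false

open MeasureTheory ProbabilityTheory Set Filter Topology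
open scoped NNReal ENNReal NNRat

namespace Pool.Agent.Results.MP_ec6b2f_pr.Dichotomy

open Pool.ADJ

theorem result :
    (∀ (Ω : Type) [MeasurableSpace Ω] (μ : Measure Ω) [IsProbabilityMeasure μ]
        (B : ℝ → Ω → Pl), IsPBM μ B →
      ∀ᵐ ω ∂μ, ∀ (t : ℝ) (K : Set Pl), IsClosed K → K ⊆ tr B ω 0 t →
        ∀ x y : Pl, x ∉ K → y ∉ K → Linked K x y) ∨
    ∃ C α : ℝ, 0 < C ∧ 0 < α ∧
      ∀ (Ω : Type) [MeasurableSpace Ω] (μ : Measure Ω) [IsProbabilityMeasure μ]
        (B : ℝ → Ω → Pl), IsPBM μ B →
        (∀ᵐ ω ∂μ, ∀ s t : ℝ, 0 ≤ s → s < t →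
          ∀ O : Set Pl, IsOpen O → (O ∩ tr B ω s t).Nonempty →
            ∃ x : ℕ → Pl, (∀ n, x n ∉ tr B ω s t) ∧
              (∀ m n, m ≠ n → ¬ Linked (tr B ω s t) (x m) (x n)) ∧
              ∀ n y, Linked (tr B ω s t) (x n) y → y ∈ O) ∧
        (∀ u : ℝ, 0 ≤ u → ∀ᵐ ω ∂μ, ∀ s t : ℝ, s ≤ u → u < t → ∀ ε : ℝ, 0 < ε →
          ∃ V ∈ 𝓝 (B u ω), ∀ z ∈ V, z ∉ tr B ω s t →
            ∀ y : Pl, Linked (tr B ω s t) z y → dist y (B u ω) < ε) ∧
        ∀ r t : ℝ, 0 < r → 0 < t →
          μ {ω | ∃ z : Pl, ‖z‖ < r ∧ LinkedInf (tr B ω 0 t) z} ≤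
            ENNReal.ofReal (C * (r ^ 2 / t) ^ α) := by
  rcases main3 (pol_thm aff_thm ind_thm) with h | ⟨C, α, hC, hα, h⟩
  · exact Or.inl h
  · refine Or.inr ⟨C, α, hC, hα, fun Ω _ μ _ B hB => ?_⟩
    obtain ⟨h1, h2, h3⟩ := h Ω μ B hB
    exact ⟨h2, h1, h3⟩

end Pool.Agent.Results.MP_ec6b2f_pr.Dichotomy
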